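import Mathlib
import Pool.Agent.H381R4.BP.Stubs
import Pool.Agent.H896CM.APX

/-!
# From polytopes to general bodies: outer polytopes and scaling (helper896)
-/

set_option autoImplicit false
open MeasureTheory Matrix Filter Topology
open scoped ENNReal BigOperators Pointwise

namespace Pool.Agent.H381BP
open Pool.Agent.H381CM

namespace GENaux

lemma lf_add (m : ℕ) {d : ℕ} (x y z : V d) (v w : E m) :
    lf m x y z (v + w) = lf m x y z v + lf m x y z w := by
  unfold lf
  rw [← Finset.sum_add_distrib]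
  refine Finset.sum_congr rfl fun i _ => ?_
  rw [← add_smul]; rfl

lemma lf_smul (m : ℕ) {d : ℕ} (x y z : V d) (c : ℝ) (v : E m) :
    lf m x y z (c • v) = c • lf m x y z v := by
  unfold lf
  rw [Finset.smul_sum]
  refine Finset.sum_congr rfl fun i _ => ?_
  rw [smul_smul]; rfl

/-- the linear map `v ↦ v₀ x + v₁ y + v₂ z` with values in the Euclidean space -/
noncomputable def Xi (m : ℕ) {d : ℕ} (x y z : V d) : E m →ₗ[ℝ] E d where
  toFun v := WithLp.toLp 2 (lf m x y z v)
  map_add' v w := by rw [lf_add]; rfl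
  map_smul' c v := by rw [lf_smul]; rfl

lemma vol_scale (m : ℕ) {d : ℕ} (x y z : V d) (A : Set (V d)) (t : ℝ) (ht : 0 < t) :
    volume {v : E m | lf m x y z v ∈ t • A} =
      ENNReal.ofReal (t ^ m) * volume {v : E m | lf m x y z v ∈ A} := by
  have h1 : {v : E m | lf m x y z v ∈ t • A} = t • {v : E m | lf m x y z v ∈ A} := by
    ext v
    rw [Set.mem_smul_set_iff_inv_smul_mem₀ ht.ne', Set.mem_ofPred_eq, Set.mem_ofPred_eq,
      Set.mem_smul_set_iff_inv_smul_mem₀ ht.ne', lf_smul]
  rw [h1, Measure.addHaar_smul, finrank_euclideanSpace_fin, abs_of_pos (by positivity)]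

lemma vol_toLp {d : ℕ} (A : Set (E d)) (hA : MeasurableSet A) :
    volume ((WithLp.toLp 2 : V d → E d) ⁻¹' A) = volume A :=
  (PiLp.volume_preserving_toLp (Fin d)).measure_preimage hA.nullMeasurableSet

lemma norm_toLp_le {d : ℕ} (x : V d) : ‖(WithLp.toLp 2 x : E d)‖ ≤ 1 ↔ x ∈ BV d := by
  rw [EuclideanSpace.norm_eq, Real.sqrt_le_iff]
  simp only [zero_le_one, true_and, one_pow, Real.norm_eq_abs, sq_abs]
  rfl

lemma preimage_eq {d : ℕ} (A : Set (E d)) :
    (WithLp.toLp 2 : V d → E d) ⁻¹' A = (WithLp.ofLp : E d → V d) '' A := by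
  ext x
  constructor
  · intro hx
    exact ⟨WithLp.toLp 2 x, hx, rfl⟩
  · rintro ⟨y, hy, rfl⟩
    exact hy

lemma bounded_pre {d : ℕ} (A : Set (E d)) (hA : Bornology.IsBounded A) :
    Bornology.IsBounded ((WithLp.toLp 2 : V d → E d) ⁻¹' A) := by
  obtain ⟨R, hR⟩ := hA.subset_closedBall 0
  have h1 : IsCompact ((WithLp.ofLp : E d → V d) '' Metric.closedBall 0 R) :=
    (isCompact_closedBall 0 R).image (PiLp.continuous_ofLp 2 _)
  rw [preimage_eq]
  exact h1.isBounded.subset (Set.image_mono hR)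

end GENaux

open GENaux

theorem T_GEN (hPLY : S_PLY) (hSEC : S_SEC) : S_GEN := by
  intro d m hm1 hm3 hmd K L hK hKc hKi hKs hL hLb hL0 s hs hsec
  have hKcl : IsClosed K := hK.isClosed
  have hKm : MeasurableSet K := hKcl.measurableSet
  -- the origin is an interior point
  have hK0 : (0 : E d) ∈ interior K := by
    obtain ⟨x, hx⟩ := hKi
    have hx' : -x ∈ K := hKs x (interior_subset hx)
    have h1 := hKc.openSegment_interior_self_subset_interior hx hx'
    apply h1
    refine ⟨1 / 2, 1 / 2, by norm_num, by norm_num, by norm_num, ?_⟩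
    rw [smul_neg, add_neg_cancel]
  set f : V d → E d := WithLp.toLp 2 with hf
  have hfc : Continuous f := PiLp.continuous_toLp 2 _
  set K0 : Set (V d) := f ⁻¹' K with hK0d
  set L0 : Set (V d) := f ⁻¹' L with hL0d
  have hK0cl : IsClosed K0 := hKcl.preimage hfc
  have hfl : ∀ (a b : ℝ) (x y : V d), f (a • x + b • y) = a • f x + b • f y := fun a b x y => rfl
  have hK0c : Convex ℝ K0 := by
    intro x hx y hy a b ha hb hab
    show f (a • x + b • y) ∈ K
    rw [hfl]
    exact hKc hx hy ha hb hab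
  have hK0b : Bornology.IsBounded K0 := bounded_pre K hK.isBounded
  have hK0i : (0 : V d) ∈ interior K0 :=
    preimage_interior_subset_interior_preimage hfc hK0
  have hK0s : ∀ x ∈ K0, -x ∈ K0 := fun x hx => hKs (f x) hx
  have hL0m : MeasurableSet L0 := hL.preimage hfc.measurable
  have hL0b : Bornology.IsBounded L0 := bounded_pre L hLb
  have hL0i : (0 : V d) ∈ interior L0 :=
    preimage_interior_subset_interior_preimage hfc hL0
  have hvK : volume K0 = volume K := vol_toLp K hKm
  have hvL : volume L0 = volume L := vol_toLp L hL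
  have hd0 : (d : ℝ) ≠ 0 := by
    have : d ≠ 0 := by omega
    exact_mod_cast this
  have hmd0 : (0 : ℝ) ≤ (m : ℝ) / d := by positivity
  -- the estimate for `t > 1`
  have key : ∀ t : ℝ, 1 < t → volume K ^ ((m : ℝ) / d) ≤
      ENNReal.ofReal (t ^ m) * (volume L ^ ((m : ℝ) / d) + s * cc d m) := by
    intro t ht
    have ht0 : 0 < t := by linarith
    obtain ⟨N, u, hu, hKP, hPK⟩ := T_APX d K0 hK0c hK0b hK0i hK0s t ht
    rw [hK0cl.closure_eq] at hPK
    have h1 := hPLY d m hm1 hm3 hmd (Fin N) u hu (t • L0) (hL0m.const_smul₀ t) (hL0b.smul₀ t)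
      (by
        rw [Measure.addHaar_smul]
        refine mul_ne_zero ?_ ?_
        · rw [Ne, ENNReal.ofReal_eq_zero, not_le]
          positivity
        · exact (Measure.measure_pos_of_nonempty_interior volume ⟨0, hL0i⟩).ne')
      (ENNReal.ofReal (t ^ m) * s) (ENNReal.mul_ne_top ENNReal.ofReal_ne_top hs)
      (by
        intro x y z
        have h2 := hSEC d m hm1 K L hKm hL hL0 s hs hsec (Xi m x y z)
        have e1 : {v : E m | (Xi m x y z) v ∈ K} = {v : E m | lf m x y z v ∈ K0} := rfl
        have e2 : {v : E m | (Xi m x y z) v ∈ L} = {v : E m | lf m x y z v ∈ L0} := rfl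
        have e3 : {v : E m | ‖(Xi m x y z) v‖ ≤ 1} = {v : E m | lf m x y z v ∈ BV d} := by
          ext v
          exact norm_toLp_le _
        rw [e1, e2, e3] at h2
        calc volume {v : E m | lf m x y z v ∈ Pol u}
            ≤ volume {v : E m | lf m x y z v ∈ t • K0} := measure_mono fun v hv => hPK hv
          _ = ENNReal.ofReal (t ^ m) * volume {v : E m | lf m x y z v ∈ K0} :=
            vol_scale m x y z K0 t ht0
          _ ≤ ENNReal.ofReal (t ^ m) * (volume {v : E m | lf m x y z v ∈ L0} +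
              s / om m * volume {v : E m | lf m x y z v ∈ BV d}) := by gcongr
          _ = volume {v : E m | lf m x y z v ∈ t • L0} + ENNReal.ofReal (t ^ m) * s / om m *
              volume {v : E m | lf m x y z v ∈ BV d} := by
            rw [vol_scale m x y z L0 t ht0, mul_add, ENNReal.div_eq_inv_mul,
              ENNReal.div_eq_inv_mul]
            ring)
    have h3 : volume (t • L0) ^ ((m : ℝ) / d) =
        ENNReal.ofReal (t ^ m) * volume L ^ ((m : ℝ) / d) := by
      rw [Measure.addHaar_smul, ENNReal.mul_rpow_of_nonneg _ _ hmd0, hvL]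
      congr 1
      rw [Module.finrank_fin_fun, abs_of_pos (by positivity),
        ENNReal.ofReal_rpow_of_pos (by positivity), ← Real.rpow_natCast t d,
        ← Real.rpow_mul ht0.le, mul_div_cancel₀ _ hd0, Real.rpow_natCast]
    calc volume K ^ ((m : ℝ) / d) = volume K0 ^ ((m : ℝ) / d) := by rw [hvK]
      _ ≤ volume (Pol u) ^ ((m : ℝ) / d) := ENNReal.rpow_le_rpow (measure_mono hKP) hmd0
      _ ≤ volume (t • L0) ^ ((m : ℝ) / d) + ENNReal.ofReal (t ^ m) * s * cc d m := h1
      _ = ENNReal.ofReal (t ^ m) * (volume L ^ ((m : ℝ) / d) + s * cc d m) := by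
        rw [h3]; ring
  -- let `t → 1`
  by_cases hX : volume L ^ ((m : ℝ) / d) + s * cc d m = ⊤
  · rw [hX]; exact le_top
  · have hlim : Tendsto (fun n : ℕ => ENNReal.ofReal ((1 + 1 / ((n : ℝ) + 1)) ^ m) *
        (volume L ^ ((m : ℝ) / d) + s * cc d m)) atTop
        (𝓝 (1 * (volume L ^ ((m : ℝ) / d) + s * cc d m))) := by
      refine ENNReal.Tendsto.mul_const ?_ (Or.inr hX)
      have h1 : Tendsto (fun n : ℕ => (1 + 1 / ((n : ℝ) + 1)) ^ m) atTop (𝓝 ((1 + 0) ^ m)) :=
        (tendsto_const_nhds.add tendsto_one_div_add_atTop_nhds_zero_nat).pow m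
      have h2 := ENNReal.tendsto_ofReal h1
      simpa using h2
    rw [one_mul] at hlim
    refine ge_of_tendsto hlim (Eventually.of_forall fun n => ?_)
    apply key
    have : (0 : ℝ) < 1 / ((n : ℝ) + 1) := by positivity
    linarith

end Pool.Agent.H381BP
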